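import Pool.Agent.N44.FA.Stm
import Pool.Agent.Helper270.HNN

/-! Project FA (helper44): the tree (helper434). -/

set_option autoImplicit false

namespace Pool.Agent.N434.FA

open HNNExtension Pool.Agent.Helper270.HNN Pool.Agent.Helper270.Tree
open Pool.Agent.N44.FA (S_TREEH)

theorem t_treeh : S_TREEH := by
  intro U _ B Φ hΦ hof hab H _ π hπ hFA
  obtain ⟨a0, b0, hab⟩ := hab
  -- the homomorphism to the extension
  have hrange : π.range ≤ Φ.range := by
    rw [hπ]
    refine sup_le ?_ ?_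
    · intro b hb
      exact ⟨of (⟨b, hb⟩ : B), hof ⟨b, hb⟩⟩
    · rintro _ ⟨b, hb, rfl⟩
      refine ⟨t * of (⟨b, hb⟩ : B) * t⁻¹, ?_⟩
      rw [map_mul, map_mul, map_inv, hof]
      rfl
  let ψ : H →* HNNExtension B ⊥ ⊥ (MulEquiv.refl _) :=
    (MonoidHom.ofInjective hΦ).symm.toMonoidHom.comp
      (π.codRestrict Φ.range fun h => hrange ⟨h, rfl⟩)
  have hψ : ∀ h, Φ (ψ h) = π h := by
    intro h
    have h1 := (MonoidHom.ofInjective hΦ).apply_symm_apply
      ((π.codRestrict Φ.range fun h => hrange ⟨h, rfl⟩) h)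
    have h2 := congrArg (Subtype.val) h1
    exact h2
  let act : MulAction H (Vert (MulEquiv.refl (⊥ : Subgroup B))) := MulAction.compHom _ ψ
  have hsm : ∀ (h : H) (v : Vert (MulEquiv.refl (⊥ : Subgroup B))), h • v = ψ h • v := fun h v => rfl
  have hT := treeAct (φ := MulEquiv.refl (⊥ : Subgroup B))
  obtain ⟨v, hv⟩ := hFA (Vert (MulEquiv.refl (⊥ : Subgroup B))) (graph (MulEquiv.refl (⊥ : Subgroup B)))
    hT.isTree (fun h x y hxy => by
      rw [hsm, hsm]
      exact hT.adj (ψ h) _ _ hxy)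
    (fun h x y hxy => by
      rw [hsm, hsm]
      exact hT.noInv (ψ h) _ _ hxy)
  obtain ⟨p, rfl⟩ := exists_vt v
  have hv' : ∀ h, ∃ x : B, ψ h * p * of x = p := by
    intro h
    have h1 := hv h
    rw [hsm, smul_vt] at h1
    exact vt_eq_iff.1 h1
  -- the elements of `B` and of its conjugate
  have h1 : ∀ b : B, ∃ x : B, (of b : HNNExtension B ⊥ ⊥ (MulEquiv.refl _)) * p * of x = p := by
    intro b
    have hb : (b : U) ∈ π.range := by
      rw [hπ]
      exact (le_sup_left : B ≤ B ⊔ _) b.2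
    obtain ⟨h, hh⟩ := hb
    have e : ψ h = of b := hΦ (by rw [hψ, hh, hof])
    rw [← e]
    exact hv' h
  have h2 : ∀ b : B, ∃ x : B, (t * of b * t⁻¹ : HNNExtension B ⊥ ⊥ (MulEquiv.refl _)) * p * of x = p := by
    intro b
    have hb : Φ t * (b : U) * (Φ t)⁻¹ ∈ π.range := by
      rw [hπ]
      exact (le_sup_right : B.map (MulAut.conj (Φ t)).toMonoidHom ≤ B ⊔ _) ⟨b, b.2, rfl⟩
    obtain ⟨h, hh⟩ := hb
    have e : ψ h = t * of b * t⁻¹ := hΦ (by rw [hψ, hh, map_mul, map_mul, map_inv, hof])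
    rw [← e]
    exact hv' h
  have hbot : ∀ (x : B) (c : (⊥ : Subgroup B)),
      x * (MonoidHom.id B) (c : B) = (MonoidHom.id B) ((MulEquiv.refl (⊥ : Subgroup B) c : (⊥ : Subgroup B)) : B) * x := by
    intro x c
    have hc : (c : B) = 1 := Subgroup.mem_bot.1 c.2
    simp [hc]
  let ρ : HNNExtension B ⊥ ⊥ (MulEquiv.refl _) →* B := lift (MonoidHom.id B) 1 (hbot 1)
  have hρo : ∀ b, ρ (of b) = b := fun b => by simp [ρ]
  have hρt : ρ t = 1 := by simp [ρ]
  have key : ∀ b : B, (t * of b * t⁻¹ : HNNExtension B ⊥ ⊥ (MulEquiv.refl _)) = of b := by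
    intro b
    obtain ⟨x, hx⟩ := h1 b
    obtain ⟨x', hx'⟩ := h2 b
    have e1 := congrArg ρ hx
    have e2 := congrArg ρ hx'
    simp only [map_mul, map_inv, hρo, hρt, one_mul, inv_one, mul_one] at e1 e2
    have e3 : x = x' := mul_left_cancel (e1.trans e2.symm)
    rw [← e3] at hx'
    exact mul_right_cancel (mul_right_cancel (hx'.trans hx.symm))
  let χ : HNNExtension B ⊥ ⊥ (MulEquiv.refl _) →* B := lift (MonoidHom.id B) a0 (hbot a0)
  have hχo : ∀ b, χ (of b) = b := fun b => by simp [χ]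
  have hχt : χ t = a0 := by simp [χ]
  have e1 := congrArg χ (key b0)
  rw [map_mul, map_mul, map_inv, hχo, hχt] at e1
  exact hab (mul_inv_eq_iff_eq_mul.1 e1)

end Pool.Agent.N434.FA
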